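import Pool.Agent.Helper84.OV.Zero

/-!
# Packet OV-UVH
-/

set_option autoImplicit false

namespace Pool.Agent.Helper2.OV.UVH

open Pool.Agent.Helper84.OV

theorem dd_mul (a b : PowerSeries ℚ) : dd (a * b) = a * dd b + b * dd a := by
  change PowerSeries.derivative ℚ (a * b) = _
  rw [Derivation.leibniz, smul_eq_mul, smul_eq_mul]

theorem dd_sub (a b : PowerSeries ℚ) : dd (a - b) = dd a - dd b := map_sub _ a b

theorem dd_int (n : ℤ) : dd ((n : ℤ) : PowerSeries ℚ) = 0 := by
  change PowerSeries.derivative ℚ ((n : ℤ) : PowerSeries ℚ) = 0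
  exact Derivation.map_intCast _ n

theorem dd_one : dd (1 : PowerSeries ℚ) = 0 := by
  have := dd_int 1
  rwa [Int.cast_one] at this

variable {G : R2} {p q : ℤ} {Ψ : R2 →+* PowerSeries ℚ}

theorem dd_x (h : Br G p q Ψ) : dd (Ψ XX) = Ψ (Polynomial.derivative G) := by
  rw [h.der]
  congr 1
  unfold DG
  rw [dX_XX]
  unfold XX
  simp

theorem dd_y (h : Br G p q Ψ) : dd (Ψ YY) = - Ψ (dX G) := by
  rw [h.der, ← map_neg]
  congr 1
  unfold DG
  rw [dX_YY]
  unfold YY
  simp

theorem cc_int (n : ℤ) : PowerSeries.constantCoeff ((n : ℤ) : PowerSeries ℚ) = (n : ℚ) := by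
  simp

theorem t : S_UVH := by
  intro hSQR G p q Ψ hB hp hpq
  have hp0 : (p : ℚ) ≠ 0 := by exact_mod_cast (by omega : p ≠ 0)
  have hq0 : (q : ℚ) ≠ 0 := by exact_mod_cast (by omega : q ≠ 0)
  have hpq0 : (p : ℚ) - q ≠ 0 := by
    have : (p : ℚ) < q := by exact_mod_cast hpq
    intro h; linarith
  have h1q : (1 : ℚ) - q ≠ 0 := by
    have : (1 : ℚ) < q := by exact_mod_cast (by omega : 1 < q)
    intro h; linarith
  have h1p : (1 : ℚ) - p ≠ 0 := by
    have : (1 : ℚ) < p := by exact_mod_cast (by omega : 1 < p)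
    intro h; linarith
  obtain ⟨uh, hu1, hu2⟩ := hSQR (Ψ (XX - YY) * ((p * (1 - q) : ℤ) : PowerSeries ℚ))
    (Ψ (XX * (1 - YY)) * ((p - q : ℤ) : PowerSeries ℚ))
    (by
      rw [map_mul, map_mul, cc_int, cc_int, hB.ev, hB.ev]
      simp only [map_sub, map_mul, map_one, ev_XX, ev_YY]
      push_cast
      ring)
    (by
      rw [map_mul, cc_int, hB.ev]
      simp only [map_sub, ev_XX, ev_YY]
      push_cast
      exact mul_ne_zero hpq0 (mul_ne_zero hp0 h1q))
  obtain ⟨vh, hv1, hv2⟩ := hSQR (Ψ (YY - XX) * ((q * (1 - p) : ℤ) : PowerSeries ℚ))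
    (Ψ (YY * (1 - XX)) * ((q - p : ℤ) : PowerSeries ℚ))
    (by
      rw [map_mul, map_mul, cc_int, cc_int, hB.ev, hB.ev]
      simp only [map_sub, map_mul, map_one, ev_XX, ev_YY]
      push_cast
      ring)
    (by
      rw [map_mul, cc_int, hB.ev]
      simp only [map_sub, ev_XX, ev_YY]
      push_cast
      refine mul_ne_zero ?_ (mul_ne_zero hq0 h1p)
      intro h
      exact hpq0 (by linarith))
  have hx := dd_x hB
  have hy := dd_y hB
  have huh : uh ≠ 0 := by rintro rfl; simp at hu1
  have hvh : vh ≠ 0 := by rintro rfl; simp at hv1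
  have hc2 : ((p - q : ℤ) : PowerSeries ℚ) ≠ 0 := by
    intro h
    have := congrArg PowerSeries.constantCoeff h
    rw [cc_int, map_zero] at this
    push_cast at this
    exact hpq0 this
  have hc2' : ((q - p : ℤ) : PowerSeries ℚ) ≠ 0 := by
    intro h
    have := congrArg PowerSeries.constantCoeff h
    rw [cc_int, map_zero] at this
    push_cast at this
    exact hpq0 (by linarith)
  refine ⟨uh, vh, hu1, hv1, by rw [mul_assoc]; exact hu2, by rw [mul_assoc]; exact hv2, ?_, ?_⟩
  · have hd := congrArg dd hu2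
    simp only [map_mul, map_sub, map_one, pow_two] at hd hu2
    simp only [dd_mul, dd_sub, dd_one, dd_int, hx, hy] at hd
    set x := Ψ XX
    set y := Ψ YY
    set GY := Ψ (Polynomial.derivative G)
    set GX := Ψ (dX G)
    set c1 := ((p * (1 - q) : ℤ) : PowerSeries ℚ)
    set c2 := ((p - q : ℤ) : PowerSeries ℚ)
    have key : 2 * dd uh * (x * (1 - y)) * (x - y) =
        uh * (GY * (y * (1 - y)) + GX * (x * (1 - x))) := by
      apply mul_left_cancel₀ (mul_ne_zero huh hc2)
      linear_combination (x - y) * hd - (GY + GX) * hu2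
    have e1 : Ψ EE = 2 * x * y * (1 - x) * (1 - y) * (x - y) := by
      unfold EE; simp only [map_mul, map_sub, map_one, map_ofNat]; rfl
    have e2 : Ψ (etu G) = GY * (y ^ 2 * (1 - x) * (1 - y)) + GX * (x * y * (1 - x) ^ 2) := by
      unfold etu; simp only [map_mul, map_sub, map_one, map_add, map_pow]; rfl
    rw [e1, e2]
    linear_combination (y * (1 - x)) * key
  · have hd := congrArg dd hv2
    simp only [map_mul, map_sub, map_one, pow_two] at hd hv2
    simp only [dd_mul, dd_sub, dd_one, dd_int, hx, hy] at hd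
    set x := Ψ XX
    set y := Ψ YY
    set GY := Ψ (Polynomial.derivative G)
    set GX := Ψ (dX G)
    set c1 := ((q * (1 - p) : ℤ) : PowerSeries ℚ)
    set c2 := ((q - p : ℤ) : PowerSeries ℚ)
    have key : 2 * dd vh * (y * (1 - x)) * (y - x) =
        vh * (- GX * (x * (1 - x)) - GY * (y * (1 - y))) := by
      apply mul_left_cancel₀ (mul_ne_zero hvh hc2')
      linear_combination (y - x) * hd - (-GX - GY) * hv2
    have e1 : Ψ EE = 2 * x * y * (1 - x) * (1 - y) * (x - y) := by
      unfold EE; simp only [map_mul, map_sub, map_one, map_ofNat]; rfl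
    have e2 : Ψ (etv G) = GY * (x * y * (1 - y) ^ 2) + GX * (x ^ 2 * (1 - x) * (1 - y)) := by
      unfold etv; simp only [map_mul, map_sub, map_one, map_add, map_pow]; rfl
    rw [e1, e2]
    linear_combination (- (x * (1 - y))) * key

end Pool.Agent.Helper2.OV.UVH
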